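import Mathlib

set_option autoImplicit false

open Filter Topology
open scoped ComplexConjugate

namespace Pool.Agent.R951.NW

lemma lin_zero {A B t : ℂ} (ht : t ≠ 0) (h1 : A + B * t = 0) (h2 : A + B * (t / 2) = 0) :
    A = 0 ∧ B = 0 := by
  have hB : B * t = 0 := by linear_combination 2 * h1 - 2 * h2
  have hB' : B = 0 := by
    rcases mul_eq_zero.1 hB with h | h
    · exact h
    · exact absurd h ht
  refine ⟨?_, hB'⟩
  rw [hB'] at h1
  simpa using h1

lemma hasDerivAt_lf (r : ℂ) (k : ℂ) : HasDerivAt (fun z : ℂ => r * z / (1 + k * z)) r 0 := by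
  have h1 : HasDerivAt (fun z : ℂ => r * z) r 0 := by
    simpa using (hasDerivAt_id (0 : ℂ)).const_mul r
  have h2 : HasDerivAt (fun z : ℂ => 1 + k * z) k 0 := by
    simpa using ((hasDerivAt_id (0 : ℂ)).const_mul k).const_add 1
  have h3 := h1.div h2 (by simp)
  have e : (r * (1 + k * 0) - r * 0 * k) / (1 + k * 0) ^ 2 = r := by simp
  rw [e] at h3
  exact h3

/-- the main algebraic lemma -/
theorem core (m μ b1 : ℂ) (r σ : ℝ) (hr : 0 < r) (hσ : 0 < σ) (bf : ℂ → ℂ)
    (hb : HasDerivAt bf b1 0) (hb0 : bf 0 = 0) {ε : ℝ} (hε : 0 < ε)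
    (hm : ∀ z : ℂ, ‖z‖ < ε → 1 + (-conj m) * z ≠ 0) (hμ : ∀ z : ℂ, ‖z‖ < ε → 1 + μ * z ≠ 0)
    (hs : ∀ z : ℂ, ‖z‖ < ε → ‖(σ : ℂ) * z / (1 + μ * z)‖ < 1)
    (hK : ∀ z w : ℂ, ‖z‖ < ε → ‖w‖ < ε →
      ((r : ℂ) * z / (1 + (-conj m) * z)) * conj ((r : ℂ) * w / (1 + (-conj m) * w)) +
        ((σ : ℂ) * z / (1 + μ * z)) * bf z * conj (((σ : ℂ) * w / (1 + μ * w)) * bf w) =
      ((σ : ℂ) * z / (1 + μ * z)) * conj ((σ : ℂ) * w / (1 + μ * w)) + bf z * conj (bf w)) :
    μ = - conj m ∧ ∀ z : ℂ, ‖z‖ < ε → bf z = 0 := by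
  set q : ℂ → ℂ := fun z => (r : ℂ) * z / (1 + (-conj m) * z) with hq
  set s : ℂ → ℂ := fun z => (σ : ℂ) * z / (1 + μ * z) with hsd
  have hK' : ∀ z w : ℂ, ‖z‖ < ε → ‖w‖ < ε →
      q z * conj (q w) + s z * bf z * conj (s w * bf w) =
        s z * conj (s w) + bf z * conj (bf w) := hK
  have hqd : HasDerivAt q (r : ℂ) 0 := hasDerivAt_lf _ _
  have hsd' : HasDerivAt s (σ : ℂ) 0 := hasDerivAt_lf _ _
  have hs0 : s 0 = 0 := by simp [hsd]
  have hq0 : q 0 = 0 := by simp [hq]
  have hball : ∀ᶠ z : ℂ in 𝓝 0, ‖z‖ < ε := by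
    have : Metric.ball (0 : ℂ) ε ∈ 𝓝 0 := Metric.ball_mem_nhds _ hε
    filter_upwards [this] with z hz
    simpa using hz
  -- first derivative in z
  have hA : ∀ w : ℂ, ‖w‖ < ε → (r : ℂ) * conj (q w) = σ * conj (s w) + b1 * conj (bf w) := by
    intro w hw
    have h1 : HasDerivAt (fun z => q z * conj (q w) + s z * bf z * conj (s w * bf w))
        ((r : ℂ) * conj (q w) + ((σ : ℂ) * bf 0 + s 0 * b1) * conj (s w * bf w)) 0 :=
      (hqd.mul_const _).add ((hsd'.mul hb).mul_const _)
    have h2 : HasDerivAt (fun z => s z * conj (s w) + bf z * conj (bf w))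
        ((σ : ℂ) * conj (s w) + b1 * conj (bf w)) 0 :=
      (hsd'.mul_const _).add (hb.mul_const _)
    have h3 : (fun z => q z * conj (q w) + s z * bf z * conj (s w * bf w)) =ᶠ[𝓝 0]
        (fun z => s z * conj (s w) + bf z * conj (bf w)) := by
      filter_upwards [hball] with z hz
      exact hK' z w hz hw
    have h4 := h1.unique (h2.congr_of_eventuallyEq h3)
    rw [hb0, hs0] at h4
    linear_combination h4
  have hA' : ∀ w : ℂ, ‖w‖ < ε → (r : ℂ) * q w = σ * s w + conj b1 * bf w := by
    intro w hw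
    have h := congrArg conj (hA w hw)
    simpa using h
  have hB : (r : ℂ) * r = σ * σ + conj b1 * b1 := by
    have h1 : HasDerivAt (fun w => (r : ℂ) * q w) ((r : ℂ) * r) 0 := hqd.const_mul _
    have h2 : HasDerivAt (fun w => (σ : ℂ) * s w + conj b1 * bf w)
        ((σ : ℂ) * σ + conj b1 * b1) 0 := (hsd'.const_mul _).add (hb.const_mul _)
    have h3 : (fun w => (r : ℂ) * q w) =ᶠ[𝓝 0] (fun w => (σ : ℂ) * s w + conj b1 * bf w) := by
      filter_upwards [hball] with z hz
      exact hA' z hz
    exact h1.unique (h2.congr_of_eventuallyEq h3)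
  -- two test points
  set t : ℂ := ((ε / 2 : ℝ) : ℂ) with ht
  have ht0 : t ≠ 0 := by
    rw [ht]; exact_mod_cast (by positivity : (ε / 2 : ℝ) ≠ 0)
  have htn : ‖t‖ < ε := by
    rw [ht, Complex.norm_real, Real.norm_of_nonneg (by positivity)]; linarith
  have htn2 : ‖t / 2‖ < ε := by
    rw [norm_div]
    simp only [Complex.norm_ofNat]
    linarith [norm_nonneg t]
  have ht20 : t / 2 ≠ 0 := div_ne_zero ht0 two_ne_zero
  have htc : conj t = t := by rw [ht]; exact Complex.conj_ofReal _
  have ht2c : conj (t / 2) = t / 2 := by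
    have : t / 2 = ((ε / 2 / 2 : ℝ) : ℂ) := by rw [ht]; push_cast; ring
    rw [this]; exact Complex.conj_ofReal _
  by_cases hb1 : b1 = 0
  · -- then r = σ and μ = - conj m
    have hrs : r = σ := by
      rw [hb1] at hB
      have h1 : r * r = σ * σ := by
        have : (r : ℂ) * r = σ * σ := by simpa using hB
        exact_mod_cast this
      nlinarith
    have hμm : μ = - conj m := by
      have h1 := hA' t htn
      rw [hb1] at h1
      simp only [map_zero, zero_mul, add_zero, hq, hsd] at h1
      have h2 := hm t htn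
      have h3 := hμ t htn
      rw [hrs] at h1
      have hσ' : (σ : ℂ) ≠ 0 := by exact_mod_cast hσ.ne'
      have h1' : (σ : ℂ) * (σ * t) / (1 + (-conj m) * t) = σ * (σ * t) / (1 + μ * t) := by
        rw [mul_div_assoc (σ : ℂ) (σ * t), mul_div_assoc (σ : ℂ) (σ * t)]; exact h1
      rw [div_eq_div_iff h2 h3] at h1'
      have h5 := mul_left_cancel₀ (mul_ne_zero hσ' (mul_ne_zero hσ' ht0)) h1'
      have h4 : μ * t = (-conj m) * t := by linear_combination h5
      exact mul_right_cancel₀ ht0 h4
    refine ⟨hμm, fun z hz => ?_⟩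
    have hqs : q z = s z := by
      simp only [hq, hsd, hrs, hμm]
    have h1 := hK' z z hz hz
    rw [hqs] at h1
    have h2 : (1 - s z * conj (s z)) * (bf z * conj (bf z)) = 0 := by
      rw [map_mul] at h1
      linear_combination -h1
    rw [Complex.mul_conj, Complex.mul_conj] at h2
    have h3 : (1 - Complex.normSq (s z)) * Complex.normSq (bf z) = 0 := by exact_mod_cast h2
    rcases mul_eq_zero.1 h3 with h | h
    · exfalso
      have h4 := hs z hz
      have h5 : Complex.normSq (s z) < 1 := by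
        rw [Complex.normSq_eq_norm_sq]
        have : ‖s z‖ < 1 := h4
        nlinarith [norm_nonneg (s z)]
      linarith
    · exact Complex.normSq_eq_zero.1 h
  · exfalso
    set β : ℂ := conj b1 * b1 with hβ
    have hcb1 : conj b1 ≠ 0 := by simpa using hb1
    have hβ0 : β ≠ 0 := mul_ne_zero hcb1 hb1
    have hβr : (r : ℂ) * r - σ * σ = β := by linear_combination hB
    have hσ' : (σ : ℂ) ≠ 0 := by exact_mod_cast hσ.ne'
    -- the polynomial identity
    have hP : ∀ z w : ℂ, conj z = z → conj w = w → z ≠ 0 → w ≠ 0 → ‖z‖ < ε → ‖w‖ < ε →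
        ((r : ℂ) * r * (1 + μ * z) - σ * σ * (1 + (-conj m) * z)) *
          ((r : ℂ) * r * (1 + conj μ * w) - σ * σ * (1 + (-m) * w)) =
        (r : ℂ) * r * ((μ + conj m) * (conj μ + m)) * (1 + μ * z) * (1 + conj μ * w) := by
      intro z w hzc hwc hz0 hw0 hz hw
      have h1 := hK' z w hz hw
      have h2 := hA' z hz
      have h3 := hA w hw
      have p1 := hm z hz
      have p2 := hμ z hz
      have p3 : 1 + (-m) * w ≠ 0 := by
        have := (map_ne_zero (starRingEnd ℂ)).2 (hm w hw)
        simpa [hwc] using this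
      have p4 : 1 + conj μ * w ≠ 0 := by
        have := (map_ne_zero (starRingEnd ℂ)).2 (hμ w hw)
        simpa [hwc] using this
      have e1 : conj (q w) = (r : ℂ) * w / (1 + (-m) * w) := by
        simp [hq, hwc]
      have e2 : conj (s w) = (σ : ℂ) * w / (1 + conj μ * w) := by
        simp [hsd, hwc]
      rw [e1, e2] at h3
      rw [map_mul, e1, e2] at h1
      simp only [hq, hsd] at h1 h2
      set B := bf z with hBz
      set B' := conj (bf w) with hBw
      -- B * conj b1 = ..., B' * b1 = ...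
      set p := 1 + (-conj m) * z with hp
      set v := 1 + μ * z with hv
      set p' := 1 + (-m) * w with hp'
      set v' := 1 + conj μ * w with hv'
      have f2 : conj b1 * B * (p * v) = z * ((r : ℂ) * r * v - σ * σ * p) := by
        field_simp at h2
        linear_combination -h2
      have f3 : b1 * B' * (p' * v') = w * ((r : ℂ) * r * v' - σ * σ * p') := by
        field_simp at h3
        linear_combination -h3
      have f1 : (r : ℂ) * r * z * w * v * v' + σ * σ * z * w * (B * B') * p * p' =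
          σ * σ * z * w * p * p' + B * B' * (p * v * (p' * v')) := by
        field_simp at h1
        linear_combination h1
      -- multiply f1 by β, and substitute
      have f4 : β * (B * B') * (p * v * (p' * v')) =
          z * w * ((r : ℂ) * r * v - σ * σ * p) * ((r : ℂ) * r * v' - σ * σ * p') := by
        rw [hβ]
        linear_combination (b1 * B' * (p' * v')) * f2 + (z * ((r : ℂ) * r * v - σ * σ * p)) * f3
      have f5 : σ * σ * z * w * (z * w * ((r : ℂ) * r * v - σ * σ * p) *
            ((r : ℂ) * r * v' - σ * σ * p')) =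
          σ * σ * z * w * (z * w * ((r : ℂ) * r * ((μ + conj m) * (conj μ + m)) * v * v')) := by
        have e5 : σ * σ * z * w * (z * w * ((r : ℂ) * r * v - σ * σ * p) *
            ((r : ℂ) * r * v' - σ * σ * p')) = v * v' * (β * (σ * σ * z * w * (B * B') * p * p')) := by
          linear_combination (-(σ * σ * z * w) : ℂ) * f4
        have e6 : β * (σ * σ * z * w * (B * B') * p * p') =
            β * (σ * σ * z * w * p * p') + z * w * ((r : ℂ) * r * v - σ * σ * p) *
            ((r : ℂ) * r * v' - σ * σ * p') - β * ((r : ℂ) * r * z * w * v * v') := by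
          linear_combination β * f1 + f4
        rw [e5, e6, ← hβr, hp, hv, hp', hv']
        ring
      have h6 : (σ : ℂ) * σ * z * w ≠ 0 := by
        refine mul_ne_zero (mul_ne_zero (mul_ne_zero hσ' hσ') hz0) hw0
      have h7 := mul_left_cancel₀ h6 f5
      have h8 : z * w * (((r : ℂ) * r * v - σ * σ * p) * ((r : ℂ) * r * v' - σ * σ * p')) =
          z * w * ((r : ℂ) * r * ((μ + conj m) * (conj μ + m)) * v * v') := by
        linear_combination h7
      exact mul_left_cancel₀ (mul_ne_zero hz0 hw0) h8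
    set κ : ℂ := (r : ℂ) * r * ((μ + conj m) * (conj μ + m)) with hκ
    set k1 : ℂ := (r : ℂ) * r * μ + σ * σ * conj m with hk1
    set k1' : ℂ := (r : ℂ) * r * conj μ + σ * σ * m with hk1'
    have hP' : ∀ z w : ℂ, conj z = z → conj w = w → z ≠ 0 → w ≠ 0 → ‖z‖ < ε → ‖w‖ < ε →
        (β * (β + k1' * w) - κ * (1 + conj μ * w)) +
          (k1 * (β + k1' * w) - κ * μ * (1 + conj μ * w)) * z = 0 := by
      intro z w hzc hwc hz0 hw0 hz hw
      have h := hP z w hzc hwc hz0 hw0 hz hw
      have e1 : (r : ℂ) * r * (1 + μ * z) - σ * σ * (1 + (-conj m) * z) = β + k1 * z := by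
        rw [← hβr, hk1]; ring
      have e2 : (r : ℂ) * r * (1 + conj μ * w) - σ * σ * (1 + (-m) * w) = β + k1' * w := by
        rw [← hβr, hk1']; ring
      rw [e1, e2] at h
      linear_combination h
    have hw1 := lin_zero ht0 (hP' t t htc htc ht0 ht0 htn htn)
      (hP' (t / 2) t ht2c htc ht20 ht0 htn2 htn)
    have hw2 := lin_zero ht0 (hP' t (t / 2) htc ht2c ht0 ht20 htn htn2)
      (hP' (t / 2) (t / 2) ht2c ht2c ht20 ht20 htn2 htn2)
    have hfin := lin_zero (A := β * β - κ) (B := β * k1' - κ * conj μ) ht0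
      (by linear_combination hw1.1) (by linear_combination hw2.1)
    obtain ⟨g1, g2⟩ := hfin
    have g3 : k1' = β * conj μ := by
      have : β * (k1' - β * conj μ) = 0 := by linear_combination g2 + (-conj μ) * g1
      rcases mul_eq_zero.1 this with h | h
      · exact absurd h hβ0
      · linear_combination h
    have g4 : (σ : ℂ) * σ * (conj μ + m) = 0 := by
      rw [hk1', ← hβr] at g3
      linear_combination g3
    have g5 : conj μ + m = 0 := by
      rcases mul_eq_zero.1 g4 with h | h
      · exact absurd h (mul_ne_zero hσ' hσ')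
      · exact h
    have g6 : κ = 0 := by rw [hκ, g5]; ring
    rw [g6] at g1
    have : β * β = 0 := by linear_combination g1
    exact hβ0 (mul_self_eq_zero.1 this)

end Pool.Agent.R951.NW
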