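import Pool.Agent.R951.NW.Main

set_option autoImplicit false

open Filter Topology Metric Set
open scoped ComplexConjugate InnerProductSpace InnerProduct

namespace Pool.Agent.R951.NW

open Pool.Agent.Helper156.Ess

lemma c_lt_d {a b c d : ℂ} (hdet : a * d - b * c ≠ 0)
    (hφ : ∀ z : ℂ, ‖z‖ < 1 → c * z + d ≠ 0 ∧ ‖(a * z + b) / (c * z + d)‖ < 1) : ‖c‖ < ‖d‖ := by
  by_contra hlt
  rw [not_lt] at hlt
  have hd : d ≠ 0 := by
    have := (hφ 0 (by simp)).1
    simpa using this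
  have hc : c ≠ 0 := by
    intro h
    rw [h, norm_zero] at hlt
    exact hd (norm_le_zero_iff.1 hlt)
  have hcl : closedBall (0 : ℂ) 1 ⊆ {z : ℂ | ‖a * z + b‖ ≤ ‖c * z + d‖} := by
    rw [← closure_ball (0 : ℂ) one_ne_zero]
    apply closure_minimal
    · intro z hz
      have hz' : ‖z‖ < 1 := by simpa using hz
      obtain ⟨h1, h2⟩ := hφ z hz'
      rw [norm_div, div_lt_one (norm_pos_iff.2 h1)] at h2
      exact h2.le
    · apply isClosed_le <;> fun_prop
  have hz0 : (-(d / c)) ∈ closedBall (0 : ℂ) 1 := by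
    rw [mem_closedBall_zero_iff, norm_neg, norm_div]
    exact (div_le_one (norm_pos_iff.2 hc)).2 hlt
  have h3 := hcl hz0
  change ‖a * _ + b‖ ≤ ‖c * _ + d‖ at h3
  have h4 : c * -(d / c) + d = 0 := by field_simp; ring
  rw [h4, norm_zero] at h3
  have h5 := norm_le_zero_iff.1 h3
  apply hdet
  field_simp at h5
  linear_combination -h5

lemma mul_conj' (z : ℂ) : conj z * z = ((‖z‖ ^ 2 : ℝ) : ℂ) := by
  rw [mul_comm, Complex.mul_conj, Complex.normSq_eq_norm_sq]

lemma id_thm {f : ℂ → ℂ} {C : ℂ} (hf : DifferentiableOn ℂ f (ball 0 1))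
    (h : ∀ᶠ z in 𝓝 (0 : ℂ), f z = C) : ∀ z : ℂ, ‖z‖ < 1 → f z = C := by
  have h1 : AnalyticOnNhd ℂ f (ball 0 1) := hf.analyticOnNhd isOpen_ball
  have h2 : AnalyticOnNhd ℂ (fun _ : ℂ => C) (ball (0 : ℂ) 1) := fun z _ => analyticAt_const
  have h3 := h1.eqOn_of_preconnected_of_eventuallyEq h2
    (convex_ball (0 : ℂ) 1).isPreconnected (mem_ball_self one_pos) h
  intro z hz
  exact h3 (by simpa using hz)

theorem weight {ψ : ℂ → ℂ} {W : H2 →L[ℂ] H2} {a b c d : ℂ} (hdet : a * d - b * c ≠ 0)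
    (hφ : ∀ z : ℂ, ‖z‖ < 1 → c * z + d ≠ 0 ∧ ‖(a * z + b) / (c * z + d)‖ < 1)
    (hψ : DifferentiableOn ℂ ψ (ball 0 1))
    (hW : WComp ψ (fun z => (a * z + b) / (c * z + d)) W) (hN : W * W† = W† * W) :
    ∃ C : ℂ, ∀ z : ℂ, ‖z‖ < 1 → ψ z * (c * z + d) = C := by
  have hcd := c_lt_d hdet hφ
  have hφ0 := hφ 0 (by simp)
  have hd : d ≠ 0 := by simpa using hφ0.1
  have hbd : ‖b‖ < ‖d‖ := by
    have h := hφ0.2
    simp only [mul_zero, zero_add] at h
    rwa [norm_div, div_lt_one (norm_pos_iff.2 hd)] at h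
  set φ : ℂ → ℂ := fun z => (a * z + b) / (c * z + d) with hφd
  have hφ' : ∀ z : ℂ, ‖z‖ < 1 → c * z + d ≠ 0 ∧ ‖φ z‖ < 1 ∧ φ z * (c * z + d) = a * z + b := by
    intro z hz
    obtain ⟨h1, h2⟩ := hφ z hz
    exact ⟨h1, h2, div_mul_cancel₀ _ h1⟩
  set δ : ℂ := a * d - b * c with hδ
  set Δ : ℝ := ‖d‖ ^ 2 - ‖c‖ ^ 2 with hΔ
  have hΔ0 : 0 < Δ := by rw [hΔ]; nlinarith [norm_nonneg c, norm_nonneg d]
  have hΔc : (Δ : ℂ) = conj d * d - conj c * c := by
    rw [mul_conj', mul_conj', hΔ]; push_cast; ring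
  have hΔn : (Δ : ℂ) ≠ 0 := by exact_mod_cast hΔ0.ne'
  set m : ℂ := (b * conj d - a * conj c) / Δ with hm
  set r : ℝ := ‖δ‖ / Δ with hr
  have hr0 : 0 < r := div_pos (norm_pos_iff.2 hdet) hΔ0
  have hδn : ((‖δ‖ : ℝ) : ℂ) * ((‖δ‖ : ℝ) : ℂ) = conj δ * δ := by
    rw [mul_conj']; push_cast; ring
  have e1 : a - m * c = conj d * δ / Δ := by
    rw [hm]
    field_simp
    rw [hΔc, hδ]
    ring
  have e2 : b - m * d = conj c * δ / Δ := by
    rw [hm]
    field_simp
    rw [hΔc, hδ]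
    ring
  have hr2 : (((r * r : ℝ)) : ℂ) = conj δ * δ / (Δ * Δ) := by
    rw [hr, ← hδn]
    push_cast
    field_simp
  have h1 : conj (a - m * c) * (a - m * c) + conj (b - m * d) * (b - m * d) =
      ((r * r : ℝ) : ℂ) * (conj c * c + conj d * d) := by
    rw [e1, e2, hr2]
    simp only [map_div₀, map_mul, RCLike.conj_conj, Complex.conj_ofReal]
    field_simp
    ring
  have h2 : conj (a - m * c) * (b - m * d) = ((r * r : ℝ) : ℂ) * (conj c * d) := by
    rw [e1, e2, hr2]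
    simp only [map_div₀, map_mul, RCLike.conj_conj, Complex.conj_ofReal]
    field_simp
  -- the denominators
  set R0 : ℝ := ‖d‖ ^ 2 - ‖b‖ ^ 2 with hR0
  have hR00 : 0 < R0 := by rw [hR0]; nlinarith [norm_nonneg b, norm_nonneg d]
  have hR0c : (R0 : ℂ) = conj d * d - conj b * b := by
    rw [mul_conj', mul_conj', hR0]; push_cast; ring
  have hR0n : (R0 : ℂ) ≠ 0 := by exact_mod_cast hR00.ne'
  set μ : ℂ := (c * conj d - a * conj b) / R0 with hμ
  set σ : ℝ := ‖δ‖ / R0 with hσ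
  have hσ0 : 0 < σ := div_pos (norm_pos_iff.2 hdet) hR00
  have hσ2 : (σ : ℂ) * σ = conj δ * δ / (R0 * R0) := by
    rw [hσ, ← hδn]
    push_cast
    field_simp
  set Ψ : ℂ → ℂ := fun z => ψ z * (c * z + d) with hΨ
  have hden : ∀ z w : ℂ, ‖z‖ < 1 → ‖w‖ < 1 →
      (1 - conj (φ w) * φ z) * ((c * z + d) * conj (c * w + d)) =
        R0 * ((1 + μ * z) * (1 + conj μ * conj w) - σ * σ * z * conj w) := by
    intro z w hz hw
    obtain ⟨_, _, k1⟩ := hφ' z hz
    obtain ⟨_, _, k2⟩ := hφ' w hw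
    have k3 : conj (φ w) * conj (c * w + d) = conj (a * w + b) := by rw [← map_mul, k2]
    have k4 : (1 - conj (φ w) * φ z) * ((c * z + d) * conj (c * w + d)) =
        (c * z + d) * conj (c * w + d) - (a * z + b) * conj (a * w + b) := by
      rw [← k1, ← k3]; ring
    rw [k4, hσ2, hμ]
    simp only [map_add, map_mul, map_div₀, map_sub, RCLike.conj_conj, Complex.conj_ofReal]
    field_simp
    rw [hδ, hR0c]
    simp only [map_sub, map_mul]
    ring
  have hG : ∀ (z w : ℂ) (hz : ‖z‖ < 1) (hw : ‖w‖ < 1),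
      (1 - conj (φ w) * φ z ≠ 0) ∧ ((1 + μ * z) * (1 + conj μ * conj w) - σ * σ * z * conj w ≠ 0) ∧
      ⟪W (kv z hz), W (kv w hw)⟫_ℂ * (R0 * ((1 + μ * z) * (1 + conj μ * conj w) -
        σ * σ * z * conj w)) = Ψ z * conj (Ψ w) := by
    intro z w hz hw
    have hne : 1 - conj (φ w) * φ z ≠ 0 := by
      intro h0
      have : ‖conj (φ w) * φ z‖ = 1 := by
        have : conj (φ w) * φ z = 1 := by linear_combination -h0
        rw [this, norm_one]
      rw [norm_mul, RCLike.norm_conj] at this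
      have k1 := (hφ' z hz).2.1
      have k2 := (hφ' w hw).2.1
      nlinarith [norm_nonneg (φ w), norm_nonneg (φ z)]
    have hc1 := (hφ' z hz).1
    have hc2 : conj (c * w + d) ≠ 0 := (map_ne_zero (starRingEnd ℂ)).2 (hφ' w hw).1
    have hD := hden z w hz hw
    refine ⟨hne, ?_, ?_⟩
    · intro h0
      rw [h0, mul_zero] at hD
      exact mul_ne_zero hne (mul_ne_zero hc1 hc2) hD
    · rw [← hD, G_eq hW hN hz hw (hφ' z hz).2.1 (hφ' w hw).2.1]
      field_simp
      simp only [hΨ, map_mul]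
      ring
  have hFE := fun (z w : ℂ) (hz : ‖z‖ < 1) (hw : ‖w‖ < 1) => FE hcd hφ' hW h1 h2 hz hw
  have hb1 : ∀ᶠ z : ℂ in 𝓝 0, ‖z‖ < 1 := by
    filter_upwards [ball_mem_nhds (0 : ℂ) one_pos] with z hz
    simpa using hz
  have hΨd : DifferentiableOn ℂ Ψ (ball 0 1) := by
    apply hψ.mul
    fun_prop
  have hΨ0d : DifferentiableAt ℂ Ψ 0 :=
    (hΨd 0 (mem_ball_self one_pos)).differentiableAt (ball_mem_nhds _ one_pos)
  by_cases hψ0 : Ψ 0 = 0
  · -- trivial case
    refine ⟨0, id_thm (f := Ψ) hΨd ?_⟩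
    have hc : ContinuousAt (fun z : ℂ => (1 - z * conj m) * (1 - conj z * m) -
        z * conj z * ((r * r : ℝ) : ℂ)) 0 := by fun_prop
    have hne : ∀ᶠ z : ℂ in 𝓝 0, (1 - z * conj m) * (1 - conj z * m) -
        z * conj z * ((r * r : ℝ) : ℂ) ≠ 0 := by
      apply hc.eventually_ne
      simp
    filter_upwards [hb1, hne] with z hz hz2
    have h3 := hFE z z hz hz
    obtain ⟨k1, k2, k3⟩ := hG z z hz hz
    obtain ⟨_, l2, l3⟩ := hG z 0 hz (by simp)
    obtain ⟨_, m2, m3⟩ := hG 0 z (by simp) hz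
    obtain ⟨_, n2, n3⟩ := hG 0 0 (by simp) (by simp)
    have l3' := l3.trans (show Ψ z * conj (Ψ 0) = 0 by rw [hψ0, map_zero, mul_zero])
    have m3' := m3.trans (show Ψ 0 * conj (Ψ z) = 0 by rw [hψ0, zero_mul])
    have n3' := n3.trans (show Ψ 0 * conj (Ψ 0) = 0 by rw [hψ0, zero_mul])
    have l4 := (mul_eq_zero.1 l3').resolve_right (mul_ne_zero hR0n l2)
    have m4 := (mul_eq_zero.1 m3').resolve_right (mul_ne_zero hR0n m2)
    have n4 := (mul_eq_zero.1 n3').resolve_right (mul_ne_zero hR0n n2)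
    rw [l4, m4, n4] at h3
    simp only [mul_zero, add_zero, sub_zero] at h3
    have h5 := (mul_eq_zero.1 h3).resolve_left hz2
    rw [h5, zero_mul] at k3
    rcases mul_eq_zero.1 k3.symm with h | h
    · exact h
    · exact (map_eq_zero (starRingEnd ℂ)).1 h
  · -- main case
    set bf : ℂ → ℂ := fun z => 1 - Ψ 0 * (1 + μ * z) / ((1 + (-conj m) * z) * Ψ z) with hbf
    have hbfd : DifferentiableAt ℂ bf 0 := by
      rw [hbf]
      refine (differentiableAt_const _).sub ?_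
      refine DifferentiableAt.div (by fun_prop) ?_ ?_
      · exact DifferentiableAt.mul (by fun_prop) hΨ0d
      · simpa using hψ0
    have hbf0 : bf 0 = 0 := by
      simp only [hbf, mul_zero, add_zero, mul_one, one_mul]
      rw [div_self hψ0, sub_self]
    have hev : ∀ᶠ z : ℂ in 𝓝 0, ‖z‖ < 1 ∧ 1 + (-conj m) * z ≠ 0 ∧ 1 + μ * z ≠ 0 ∧ Ψ z ≠ 0 ∧
        ‖(σ : ℂ) * z / (1 + μ * z)‖ < 1 := by
      have c1 : ∀ᶠ z : ℂ in 𝓝 0, 1 + (-conj m) * z ≠ 0 := by
        have : ContinuousAt (fun z : ℂ => 1 + (-conj m) * z) 0 := by fun_prop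
        exact this.eventually_ne (by simp)
      have c2 : ∀ᶠ z : ℂ in 𝓝 0, 1 + μ * z ≠ 0 := by
        have : ContinuousAt (fun z : ℂ => 1 + μ * z) 0 := by fun_prop
        exact this.eventually_ne (by simp)
      have c3 : ∀ᶠ z : ℂ in 𝓝 0, Ψ z ≠ 0 := hΨ0d.continuousAt.eventually_ne hψ0
      have c4 : ∀ᶠ z : ℂ in 𝓝 0, ‖(σ : ℂ) * z / (1 + μ * z)‖ < 1 := by
        have : ContinuousAt (fun z : ℂ => ‖(σ : ℂ) * z / (1 + μ * z)‖) 0 := by
          apply ContinuousAt.norm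
          apply ContinuousAt.div (by fun_prop) (by fun_prop) (by simp)
        have h0 : (fun z : ℂ => ‖(σ : ℂ) * z / (1 + μ * z)‖) 0 < 1 := by simp
        exact this.eventually_lt_const h0
      filter_upwards [hb1, c1, c2, c3, c4] with z g1 g2 g3 g4 g5
      exact ⟨g1, g2, g3, g4, g5⟩
    obtain ⟨ε, hε, hball⟩ := Metric.eventually_nhds_iff_ball.1 hev
    have hball' : ∀ z : ℂ, ‖z‖ < ε → ‖z‖ < 1 ∧ 1 + (-conj m) * z ≠ 0 ∧ 1 + μ * z ≠ 0 ∧ Ψ z ≠ 0 ∧
        ‖(σ : ℂ) * z / (1 + μ * z)‖ < 1 := fun z hz => hball z (by simpa using hz)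
    have hcore := core m μ (deriv bf 0) r σ hr0 hσ0 bf hbfd.hasDerivAt hbf0 hε
      (fun z hz => (hball' z hz).2.1) (fun z hz => (hball' z hz).2.2.1)
      (fun z hz => (hball' z hz).2.2.2.2) (by
        intro z w hz hw
        obtain ⟨z1, z2, z3, z4, -⟩ := hball' z hz
        obtain ⟨w1, w2, w3, w4, -⟩ := hball' w hw
        have w2' : 1 + (-m) * conj w ≠ 0 := by
          have := (map_ne_zero (starRingEnd ℂ)).2 w2
          simpa using this
        have w3' : 1 + conj μ * conj w ≠ 0 := by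
          have := (map_ne_zero (starRingEnd ℂ)).2 w3
          simpa using this
        have w4' : conj (Ψ w) ≠ 0 := (map_ne_zero (starRingEnd ℂ)).2 w4
        have hψ0' : conj (Ψ 0) ≠ 0 := (map_ne_zero (starRingEnd ℂ)).2 hψ0
        have F := hFE z w z1 w1
        obtain ⟨-, k2, k3⟩ := hG z w z1 w1
        obtain ⟨-, l2, l3⟩ := hG z 0 z1 (by simp)
        obtain ⟨-, m2, m3⟩ := hG 0 w (by simp) w1
        obtain ⟨-, n2, n3⟩ := hG 0 0 (by simp) (by simp)
        simp only [map_zero, mul_zero, add_zero, sub_zero, mul_one, one_mul, zero_mul] at l3 m3 n3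
        set g1 := ⟪W (kv z z1), W (kv w w1)⟫_ℂ
        set g2 := ⟪W (kv z z1), W (kv 0 (by simp))⟫_ℂ
        set g3 := ⟪W (kv 0 (by simp)), W (kv w w1)⟫_ℂ
        set g4 := ⟪W (kv 0 (by simp)), W (kv 0 (by simp))⟫_ℂ
        have hF' : ((1 + (-conj m) * z) * (1 + (-m) * conj w) - z * conj w * (r * r)) *
              (Ψ z * conj (Ψ w)) * ((1 + μ * z) * (1 + conj μ * conj w)) =
            ((1 + μ * z) * (1 + conj μ * conj w) - σ * σ * z * conj w) *
              ((1 + (-conj m) * z) * (1 + conj μ * conj w) * (Ψ z * conj (Ψ 0)) +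
               (1 + (-m) * conj w) * (1 + μ * z) * (Ψ 0 * conj (Ψ w)) -
               (1 + μ * z) * (1 + conj μ * conj w) * (Ψ 0 * conj (Ψ 0))) := by
          rw [← k3, ← l3, ← m3, ← n3]
          push_cast at F
          linear_combination ((R0 : ℂ) * ((1 + μ * z) * (1 + conj μ * conj w) -
            σ * σ * z * conj w) * ((1 + μ * z) * (1 + conj μ * conj w))) * F
        have eb : conj (bf w) = 1 - conj (Ψ 0) * (1 + conj μ * conj w) /
            ((1 + (-m) * conj w) * conj (Ψ w)) := by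
          simp only [hbf, map_sub, map_one, map_div₀, map_mul, map_add, map_neg, RCLike.conj_conj]
        have eq1 : conj ((r : ℂ) * w / (1 + (-conj m) * w)) = r * conj w / (1 + (-m) * conj w) := by
          simp only [map_one, map_div₀, map_mul, map_add, map_neg, RCLike.conj_conj,
            Complex.conj_ofReal]
        have eq2 : conj ((σ : ℂ) * w / (1 + μ * w)) = σ * conj w / (1 + conj μ * conj w) := by
          simp only [map_one, map_div₀, map_mul, map_add, Complex.conj_ofReal]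
        rw [map_mul, eb, eq1, eq2]
        simp only [hbf]
        set p := 1 + (-conj m) * z
        set p' := 1 + (-m) * conj w
        set v := 1 + μ * z
        set v' := 1 + conj μ * conj w
        set x := conj w
        have key : (1 - (σ : ℂ) * z / v * (σ * x / v')) * (1 - (1 - Ψ 0 * v / (p * Ψ z)) *
            (1 - conj (Ψ 0) * v' / (p' * conj (Ψ w)))) = 1 - r * z / p * (r * x / p') := by
          field_simp
          linear_combination -hF'
        linear_combination key)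
    obtain ⟨hμm, hb⟩ := hcore
    refine ⟨Ψ 0, id_thm (f := Ψ) hΨd ?_⟩
    filter_upwards [ball_mem_nhds (0 : ℂ) hε] with z hz
    have hz' : ‖z‖ < ε := by simpa using hz
    obtain ⟨z1, z2, z3, z4, -⟩ := hball' z hz'
    have h3 := hb z hz'
    simp only [hbf] at h3
    rw [hμm] at h3
    have h4 : Ψ 0 * (1 + (-conj m) * z) / ((1 + (-conj m) * z) * Ψ z) = 1 := by
      linear_combination -h3
    rw [div_eq_one_iff_eq (mul_ne_zero z2 z4)] at h4
    have h5 : (1 + (-conj m) * z) * Ψ 0 = (1 + (-conj m) * z) * Ψ z := by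
      linear_combination h4
    exact (mul_left_cancel₀ z2 h5).symm

end Pool.Agent.R951.NW
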