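import Pool.Agent.Helper156.Ess.H2

set_option autoImplicit false

open Filter Topology Metric Set
open scoped ComplexConjugate InnerProductSpace

namespace Pool.Agent.R951.NW

open Pool.Agent.Helper156.Ess

/-! ### reproducing kernels -/

lemma geo_memlp (w : ℂ) (hw : ‖w‖ < 1) : Memℓp (fun n : ℕ => (conj w) ^ n) 2 := by
  apply memℓp_gen
  have h : Summable (fun n : ℕ => (‖w‖ ^ 2) ^ n) :=
    summable_geometric_of_lt_one (by positivity) (by nlinarith [norm_nonneg w])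
  refine h.congr fun n => ?_
  simp [← pow_mul, mul_comm]

/-- the reproducing kernel of `H2` at `w` -/
noncomputable def kv (w : ℂ) (hw : ‖w‖ < 1) : H2 := ⟨fun n => (conj w) ^ n, geo_memlp w hw⟩

lemma inner_kv (w : ℂ) (hw : ‖w‖ < 1) (f : H2) : ⟪kv w hw, f⟫_ℂ = ev f w := by
  rw [lp.inner_eq_tsum, ev]
  congr 1
  funext n
  have e : (kv w hw) n = (conj w) ^ n := rfl
  rw [e]
  simp [RCLike.inner_apply]

lemma ev_kv (w : ℂ) (hw : ‖w‖ < 1) {z : ℂ} (hz : ‖z‖ < 1) :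
    ev (kv w hw) z = (1 - conj w * z)⁻¹ := by
  rw [ev]
  have e : ∀ n : ℕ, (kv w hw) n * z ^ n = (conj w * z) ^ n := by
    intro n
    have e : (kv w hw) n = (conj w) ^ n := rfl
    rw [e, mul_pow]
  simp only [e]
  apply tsum_geometric_of_norm_lt_one
  rw [norm_mul, RCLike.norm_conj]
  nlinarith [norm_nonneg w, norm_nonneg z]

/-! ### multiplication by linear polynomials -/

/-- multiplication by `α z + β` -/
noncomputable def Lp (α β : ℂ) : H2 →L[ℂ] H2 := α • Mz + β • (1 : H2 →L[ℂ] H2)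

lemma Lp_apply (α β : ℂ) (f : H2) : Lp α β f = α • Mz f + β • f := rfl

lemma ev_Lp (α β : ℂ) (f : H2) {z : ℂ} (hz : ‖z‖ < 1) :
    ev (Lp α β f) z = (α * z + β) * ev f z := by
  rw [Lp_apply, ev_add _ _ hz, ev_smul, ev_smul, ev_Mz f hz]
  ring

lemma inner_Mz (x y : H2) : ⟪Mz x, Mz y⟫_ℂ = ⟪x, y⟫_ℂ := by
  have h : ∀ x, ‖Mz x‖ = ‖x‖ := Mz_norm
  exact (LinearMap.norm_map_iff_inner_map_map Mz).1 h x y

lemma inner_Lp (α β : ℂ) (x y : H2) :
    ⟪Lp α β x, Lp α β y⟫_ℂ = (conj α * α + conj β * β) * ⟪x, y⟫_ℂ +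
      conj α * β * ⟪Mz x, y⟫_ℂ + conj β * α * ⟪x, Mz y⟫_ℂ := by
  rw [Lp_apply, Lp_apply]
  simp only [inner_add_left, inner_add_right, inner_smul_left, inner_smul_right, inner_Mz]
  ring

lemma Lp_unit {c d : ℂ} (h : ‖c‖ < ‖d‖) :
    ∃ V : H2 →L[ℂ] H2, V * Lp c d = 1 ∧ Lp c d * V = 1 ∧
      ∀ α β, V * Lp α β = Lp α β * V := by
  have hd : d ≠ 0 := by
    intro h0
    rw [h0, norm_zero] at h
    exact absurd h (not_lt.2 (norm_nonneg _))
  set t : H2 →L[ℂ] H2 := (-(c / d)) • Mz with ht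
  have hn1 : ‖t‖ ≤ ‖-(c / d)‖ := by
    refine ContinuousLinearMap.opNorm_le_bound _ (norm_nonneg _) (fun f => ?_)
    rw [ht, ContinuousLinearMap.smul_apply, norm_smul, Mz_norm]
  have hn : ‖t‖ < 1 := by
    refine lt_of_le_of_lt hn1 ?_
    rw [norm_neg, norm_div, div_lt_one (norm_pos_iff.2 hd)]
    exact h
  set U := Units.oneSub t hn with hU
  have hUv : (U : H2 →L[ℂ] H2) = 1 - t := rfl
  have hD : Lp c d = d • (U : H2 →L[ℂ] H2) := by
    rw [hUv, ht, Lp, smul_sub, smul_smul]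
    have : d * -(c / d) = -c := by field_simp
    rw [this, neg_smul, sub_neg_eq_add, add_comm]
  have hcomm : ∀ α β, Commute (Lp α β) (U : H2 →L[ℂ] H2) := by
    intro α β
    rw [hUv, ht, Lp]
    have h1 : Commute (α • Mz + β • (1 : H2 →L[ℂ] H2)) Mz := by
      refine Commute.add_left ?_ ?_
      · exact (Commute.refl Mz).smul_left α
      · exact (Commute.one_left Mz).smul_left β
    exact (Commute.one_right _).sub_right (h1.smul_right _)
  refine ⟨d⁻¹ • ((U⁻¹ : (H2 →L[ℂ] H2)ˣ) : H2 →L[ℂ] H2), ?_, ?_, ?_⟩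
  · rw [hD, smul_mul_assoc, mul_smul_comm, smul_smul, inv_mul_cancel₀ hd, one_smul,
      Units.inv_mul]
  · rw [hD, smul_mul_assoc, mul_smul_comm, smul_smul, mul_inv_cancel₀ hd, one_smul,
      Units.mul_inv]
  · intro α β
    have h2 := (hcomm α β).units_inv_right
    rw [smul_mul_assoc, mul_smul_comm]
    exact congrArg (fun x => d⁻¹ • x) h2.eq.symm

end Pool.Agent.R951.NW
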