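import Pool.Agent.R951.NW.Hardy
import Pool.Agent.R951.NW.Algebra

set_option autoImplicit false

open Filter Topology Metric Set
open scoped ComplexConjugate InnerProductSpace InnerProduct

namespace Pool.Agent.R951.NW

open Pool.Agent.Helper156.Ess

variable {ψ φ : ℂ → ℂ} {W : H2 →L[ℂ] H2}

/-- `W f = ψ · (f ∘ φ)` on the unit disc -/
def WComp (ψ φ : ℂ → ℂ) (W : H2 →L[ℂ] H2) : Prop :=
  ∀ (f : H2) (z : ℂ), ‖z‖ < 1 → ev (W f) z = ψ z * ev f (φ z)

lemma adj_kv (hW : WComp ψ φ W) {w : ℂ} (hw : ‖w‖ < 1) (hφ : ‖φ w‖ < 1) :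
    (W†) (kv w hw) = conj (ψ w) • kv (φ w) hφ := by
  refine ext_inner_right ℂ (fun f => ?_)
  rw [ContinuousLinearMap.adjoint_inner_left, inner_kv, hW f w hw, inner_smul_left, inner_kv]
  simp

lemma G_eq (hW : WComp ψ φ W) (hN : W * W† = W† * W) {z w : ℂ} (hz : ‖z‖ < 1) (hw : ‖w‖ < 1)
    (hφz : ‖φ z‖ < 1) (hφw : ‖φ w‖ < 1) :
    ⟪W (kv z hz), W (kv w hw)⟫_ℂ = ψ z * conj (ψ w) * (1 - conj (φ w) * φ z)⁻¹ := by
  have h1 : ⟪W (kv z hz), W (kv w hw)⟫_ℂ = ⟪(W†) (kv z hz), (W†) (kv w hw)⟫_ℂ := by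
    rw [← ContinuousLinearMap.adjoint_inner_right W (kv z hz) (W (kv w hw))]
    have h2 : (W†) (W (kv w hw)) = W ((W†) (kv w hw)) := by
      have := congrArg (fun T : H2 →L[ℂ] H2 => T (kv w hw)) hN
      exact this.symm
    rw [h2, ContinuousLinearMap.adjoint_inner_left]
  rw [h1, adj_kv hW hz hφz, adj_kv hW hw hφw, inner_smul_left, inner_smul_right, inner_kv,
    ev_kv _ _ hφz]
  simp
  ring

/-- the functional equation -/
theorem FE {a b c d : ℂ} (hcd : ‖c‖ < ‖d‖)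
    (hφ : ∀ z : ℂ, ‖z‖ < 1 → c * z + d ≠ 0 ∧ ‖φ z‖ < 1 ∧ φ z * (c * z + d) = a * z + b)
    (hW : WComp ψ φ W) {m : ℂ} {r2 : ℝ}
    (h1 : conj (a - m * c) * (a - m * c) + conj (b - m * d) * (b - m * d) =
      (r2 : ℂ) * (conj c * c + conj d * d))
    (h2 : conj (a - m * c) * (b - m * d) = (r2 : ℂ) * (conj c * d))
    {z w : ℂ} (hz : ‖z‖ < 1) (hw : ‖w‖ < 1) :
    ((1 - z * conj m) * (1 - conj w * m) - z * conj w * r2) *
        ⟪W (kv z hz), W (kv w hw)⟫_ℂ =
      (1 - z * conj m) * ⟪W (kv z hz), W (kv 0 (by simp))⟫_ℂ +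
      (1 - conj w * m) * ⟪W (kv 0 (by simp)), W (kv w hw)⟫_ℂ -
      ⟪W (kv 0 (by simp)), W (kv 0 (by simp))⟫_ℂ := by
  obtain ⟨V, hV1, hV2, hV3⟩ := Lp_unit hcd
  set e : H2 := W (kv 0 (by simp)) with he
  have hev : ∀ {z : ℂ}, ‖z‖ < 1 → ev e z = ψ z := by
    intro z hz
    rw [he, hW _ z hz, ev_kv _ _ (hφ z hz).2.1]
    simp
  -- relation for u_w
  have hu : ∀ {w : ℂ} (hw : ‖w‖ < 1),
      Lp c d ((1 - conj w * m) • W (kv w hw) - e) =
        conj w • Lp (a - m * c) (b - m * d) (W (kv w hw)) := by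
    intro w hw
    apply ev_injective
    intro x hx
    have hx' : ‖x‖ < 1 := by simpa using hx
    obtain ⟨k1, k2, k3⟩ := hφ x hx'
    rw [ev_Lp _ _ _ hx', ev_sub _ _ hx', ev_smul, ev_smul, ev_Lp _ _ _ hx', hW _ x hx', hev hx',
      ev_kv _ _ k2]
    have hne : 1 - conj w * φ x ≠ 0 := by
      intro h0
      have : ‖conj w * φ x‖ = 1 := by
        have : conj w * φ x = 1 := by linear_combination -h0
        rw [this, norm_one]
      rw [norm_mul, RCLike.norm_conj] at this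
      nlinarith [norm_nonneg w, norm_nonneg (φ x)]
    field_simp
    linear_combination (ψ x * conj w) * k3
  have hX : ∀ {w : ℂ} (hw : ‖w‖ < 1),
      (1 - conj w * m) • W (kv w hw) - e =
        conj w • Lp (a - m * c) (b - m * d) (V (W (kv w hw))) := by
    intro w hw
    have h3 : V (Lp c d ((1 - conj w * m) • W (kv w hw) - e)) =
        V (conj w • Lp (a - m * c) (b - m * d) (W (kv w hw))) := congrArg (fun x => V x) (hu hw)
    have h4 : V (Lp c d ((1 - conj w * m) • W (kv w hw) - e)) =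
        (1 - conj w * m) • W (kv w hw) - e :=
      congrArg (fun T : H2 →L[ℂ] H2 => T ((1 - conj w * m) • W (kv w hw) - e)) hV1
    have h5 : V (Lp (a - m * c) (b - m * d) (W (kv w hw))) =
        Lp (a - m * c) (b - m * d) (V (W (kv w hw))) :=
      congrArg (fun T : H2 →L[ℂ] H2 => T (W (kv w hw))) (hV3 _ _)
    rw [h4, map_smul, h5] at h3
    exact h3
  have hVi : ∀ x : H2, Lp c d (V x) = x := fun x =>
    congrArg (fun T : H2 →L[ℂ] H2 => T x) hV2
  have h2' : conj (b - m * d) * (a - m * c) = (r2 : ℂ) * (conj d * c) := by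
    have := congrArg conj h2
    simp only [map_mul, RCLike.conj_conj, Complex.conj_ofReal] at this
    linear_combination this
  have hiso : ∀ x y : H2, ⟪Lp (a - m * c) (b - m * d) (V x), Lp (a - m * c) (b - m * d) (V y)⟫_ℂ =
      (r2 : ℂ) * ⟪x, y⟫_ℂ := by
    intro x y
    rw [inner_Lp, h1, h2, h2']
    have := inner_Lp c d (V x) (V y)
    rw [hVi, hVi] at this
    rw [this]
    ring
  have hmain : ⟪(1 - conj z * m) • W (kv z hz) - e, (1 - conj w * m) • W (kv w hw) - e⟫_ℂ =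
      z * conj w * r2 * ⟪W (kv z hz), W (kv w hw)⟫_ℂ := by
    rw [hX hz, hX hw, inner_smul_left, inner_smul_right, hiso]
    simp
    ring
  rw [inner_sub_left, inner_sub_right, inner_sub_right, inner_smul_left, inner_smul_right,
    inner_smul_left, inner_smul_right] at hmain
  simp only [map_sub, map_one, map_mul, RCLike.conj_conj] at hmain
  linear_combination hmain

end Pool.Agent.R951.NW
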